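import Pool.Agent.helper67.RG.Spec3
import Pool.Agent.helper82.RG.SUI

/-!
# Project rg (MP_2e0e07_nt), row DSC
-/

namespace Pool.Agent.RG.DSC

open Matrix Polynomial Pool.Agent.GO Pool.Agent.AR MeasureTheory Kronecker Pool.Agent.RG

theorem DSC_mulVec {F κ κ' : Type*} [Field F] [Fintype κ] [Fintype κ'] (e : κ ≃ κ')
    (T : Matrix κ κ F) (T' : Matrix κ' κ' F) (h : ∀ a b, T a b = T' (e a) (e b)) (x : κ' → F) :
    (fun a => (T' *ᵥ x) (e a)) = T *ᵥ fun a => x (e a) := by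
  funext a
  show ∑ b', T' (e a) b' * x b' = ∑ b, T a b * x (e b)
  rw [← Equiv.sum_comp e]
  exact Finset.sum_congr rfl fun b _ => by rw [h]

theorem DSC_reindex {F Γ d κ κ' : Type*} [Field F] [Fintype d] [Fintype κ] [Fintype κ']
    (e : κ ≃ κ') (ρ : Γ → Matrix d d F) (T : Γ → Matrix κ κ F) (T' : Γ → Matrix κ' κ' F)
    (h : ∀ g a b, T g a b = T' g (e a) (e b)) (hs : IsSubquotient ρ T) : IsSubquotient ρ T' := by
  obtain ⟨Q, hQ, π, hπ, hπe⟩ := hs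
  let E : (κ' → F) ≃ₗ[F] (κ → F) := LinearEquiv.funCongrLeft F F e
  have hE : ∀ g x, E (T' g *ᵥ x) = T g *ᵥ E x := fun g x => DSC_mulVec e (T g) (T' g) (h g) x
  let Q' : Submodule F (κ' → F) := Q.comap (E : (κ' → F) →ₗ[F] (κ → F))
  have hQ' : ∀ x, x ∈ Q' ↔ E x ∈ Q := fun x => Iff.rfl
  have hst : ∀ g, ∀ x ∈ Q', T' g *ᵥ x ∈ Q' := by
    intro g x hx
    rw [hQ', hE]
    exact hQ g _ ((hQ' x).1 hx)
  let R : Q' →ₗ[F] Q := (E : (κ' → F) →ₗ[F] (κ → F)).restrict (p := Q') (q := Q)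
    (fun x hx => (hQ' x).1 hx)
  have hR : ∀ x : Q', (R x : κ → F) = E x := fun x => rfl
  have hRs : Function.Surjective R := by
    intro y
    refine ⟨⟨E.symm y.1, ?_⟩, ?_⟩
    · rw [hQ', LinearEquiv.apply_symm_apply]
      exact y.2
    · apply Subtype.ext
      rw [hR]
      exact LinearEquiv.apply_symm_apply E y.1
  refine ⟨Q', hst, π.comp R, hπ.comp hRs, fun g x => ?_⟩
  have h1 : R ⟨T' g *ᵥ x.1, hst g x.1 x.2⟩ = ⟨T g *ᵥ (R x).1, hQ g (R x).1 (R x).2⟩ := by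
    apply Subtype.ext
    rw [hR]
    exact hE g x.1
  rw [LinearMap.comp_apply, h1, hπe g (R x)]
  rfl

theorem DSC : DSC_stmt := by
  classical
  intro Γ F _ _ _ r n V ρ hirr hA
  obtain ⟨i, N, τ, hτ, hs⟩ := hA
  refine ⟨τ.ker, hτ, i, ?_⟩
  have hs1 : IsSubquotient (fun u : τ.ker => ρ u)
      (fun u : τ.ker => V i u ⊗ₖ
        (Matrix.of fun x y : Fin N => if x = τ u y then (1 : F) else 0)) := by
    obtain ⟨Q, hQ, π, hπ, hπe⟩ := hs
    exact ⟨Q, fun g x hx => hQ g x hx, π, hπ, fun g x => hπe g x⟩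
  have hs2 : IsSubquotient (fun u : τ.ker => ρ u)
      (fun u : τ.ker => dirSum (fun _ : Fin N => (V i).comp τ.ker.subtype) u) := by
    refine DSC_reindex ((Equiv.prodComm (Fin (n i)) (Fin N)).trans
      (Equiv.sigmaEquivProd (Fin N) (Fin (n i))).symm) _ _ _ ?_ hs1
    rintro u ⟨a, x⟩ ⟨b, y⟩
    have hu : τ u = 1 := u.2
    have h1 : (V i u ⊗ₖ (Matrix.of fun x y : Fin N => if x = τ u y then (1 : F) else 0))
        (a, x) (b, y) = V i u a b * (if x = y then (1 : F) else 0) := by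
      rw [Matrix.kroneckerMap_apply, Matrix.of_apply, hu]
      rfl
    rw [h1]
    show _ = Matrix.blockDiagonal' (fun _ : Fin N => V i u) ⟨x, a⟩ ⟨y, b⟩
    by_cases hxy : x = y
    · subst hxy
      rw [if_pos rfl, mul_one, Matrix.blockDiagonal'_apply_eq]
    · rw [if_neg hxy, mul_zero, Matrix.blockDiagonal'_apply_ne _ _ _ hxy]
  obtain ⟨_, h3⟩ := SUI.SUI (fun _ : Fin N => (V i).comp τ.ker.subtype) (ρ.comp τ.ker.subtype)
    (hirr τ.ker hτ) hs2
  exact h3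

end Pool.Agent.RG.DSC
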