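import Pool.Agent.helper10.RG.SpecB

/-!
# Project rg (MP_2e0e07_nt), row ALGN
-/

set_option autoImplicit false

universe u v w

namespace Pool.Agent.RG

open Matrix Polynomial Pool.Agent.GO Pool.Agent.AR

theorem ALGN_gen1 {R S : Type*} [CommRing R] [CommRing S] (φ : R →+* S) {a b : ℕ}
    (A : Matrix (Fin a) (Fin a) R) (M : Matrix (Fin b) (Fin b) R) (T d : R) :
    (gen1 A M T d).map φ = gen1 (A.map φ) (M.map φ) (φ T) (φ d) := by
  ext i j
  simp only [gen1, Matrix.map_apply, Matrix.add_apply, Matrix.sub_apply, Matrix.smul_apply,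
    kroneckerMap_apply, Matrix.mul_apply, Matrix.one_apply, map_add, map_sub, map_mul, map_sum,
    smul_eq_mul, apply_ite φ, map_one, map_zero]

theorem ALGN_gen2 {R S : Type*} [CommRing R] [CommRing S] (φ : R →+* S) {a b : ℕ}
    (A : Matrix (Fin a) (Fin a) R) (M : Matrix (Fin b) (Fin b) R) (T d : R) :
    (gen2 A M T d).map φ = gen2 (A.map φ) (M.map φ) (φ T) (φ d) := by
  ext i j
  simp only [gen2, Matrix.map_apply, Matrix.add_apply, Matrix.sub_apply, Matrix.smul_apply,
    kroneckerMap_apply, Matrix.mul_apply, Matrix.one_apply, map_add, map_sub, map_mul, map_sum,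
    smul_eq_mul, apply_ite φ, map_one, map_zero, map_pow, map_ofNat]

theorem ALGN_gen3 {R S : Type*} [CommRing R] [CommRing S] (φ : R →+* S) {a : ℕ}
    (A : Matrix (Fin a) (Fin a) R) (T d : R) :
    (gen3 A T d).map φ = gen3 (A.map φ) (φ T) (φ d) := by
  ext i j
  simp only [gen3, Matrix.map_apply, Matrix.add_apply, Matrix.sub_apply, Matrix.smul_apply,
    kroneckerMap_apply, Matrix.mul_apply, Matrix.one_apply, map_add, map_sub, map_mul, map_sum,
    smul_eq_mul, apply_ite φ, map_one, map_zero, map_pow]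

theorem ALGN_genN {R S : Type*} [CommRing R] [CommRing S] (φ : R →+* S) {a b : ℕ}
    (A : Matrix (Fin a) (Fin a) R) (M : Matrix (Fin b) (Fin b) R) (T d : R) :
    φ (genN A M T d) = genN (A.map φ) (M.map φ) (φ T) (φ d) := by
  unfold genN
  rw [map_mul, map_mul, RingHom.map_det, RingHom.map_det, RingHom.map_det,
    RingHom.mapMatrix_apply, RingHom.mapMatrix_apply, RingHom.mapMatrix_apply, ALGN_gen1,
    ALGN_gen2, ALGN_gen3]

theorem ALGN : ALGN_stmt.{u, v} := by
  intro Γ F _ S a b A M T d hA hM hT hd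
  let A' : Matrix (Fin a) (Fin a) S := Matrix.of fun i j => ⟨fun g => A g i j, hA i j⟩
  let M' : Matrix (Fin b) (Fin b) S := Matrix.of fun i j => ⟨fun g => M g i j, hM i j⟩
  let T' : S := ⟨T, hT⟩
  let d' : S := ⟨d, hd⟩
  have h : (fun g => genN (A g) (M g) (T g) (d g)) = (genN A' M' T' d' : S).1 := by
    funext g
    have h1 := ALGN_genN ((Pi.evalRingHom (fun _ : Γ => F) g).comp
      (S.val : S →ₐ[F] (Γ → F)).toRingHom) A' M' T' d'
    exact h1.symm
  rw [h]
  exact (genN A' M' T' d' : S).2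

end Pool.Agent.RG
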