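import Pool.Agent.helper67.RG.Spec

/-!
# Project rg (MP_2e0e07_nt), row KDR
-/

namespace Pool.Agent.RG.KDR

open Matrix Polynomial Kronecker Pool.Agent.GO Pool.Agent.AR Pool.Agent.RG

theorem KDR_right {F R : Type*} [Field F] [CommRing R] [Algebra F R] (D : Derivation F R R)
    {ι κ l : Type*} [Fintype κ] (A : Matrix ι κ R) (B : Matrix κ l F) :
    (A * B.map (algebraMap F R)).map D = A.map D * B.map (algebraMap F R) := by
  ext i k
  simp only [Matrix.map_apply, Matrix.mul_apply, map_sum]
  apply Finset.sum_congr rfl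
  intro j _
  rw [Derivation.leibniz, Derivation.map_algebraMap, smul_zero, zero_add, smul_eq_mul, mul_comm]

theorem KDR_left {F R : Type*} [Field F] [CommRing R] [Algebra F R] (D : Derivation F R R)
    {ι κ l : Type*} [Fintype κ] (B : Matrix ι κ F) (A : Matrix κ l R) :
    (B.map (algebraMap F R) * A).map D = B.map (algebraMap F R) * A.map D := by
  ext i k
  simp only [Matrix.map_apply, Matrix.mul_apply, map_sum]
  apply Finset.sum_congr rfl
  intro j _
  rw [Derivation.leibniz, Derivation.map_algebraMap, smul_zero, add_zero, smul_eq_mul]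

theorem KDR_kron {F R : Type*} [Field F] [CommRing R] [Algebra F R] (D : Derivation F R R)
    {ι κ : Type*} (A : Matrix ι ι R) (B : Matrix κ κ R) :
    (A ⊗ₖ B).map D = A.map D ⊗ₖ B + A ⊗ₖ B.map D := by
  ext i k
  simp only [Matrix.map_apply, Matrix.kroneckerMap_apply, Matrix.add_apply]
  rw [Derivation.leibniz, smul_eq_mul, smul_eq_mul]
  ring

theorem KDR : KDR_stmt := by
  intro F R _ _ _ D d b T T' hTT W ρ M S Z hW hS hDW hDρ hu
  have h1 : W.map D * T.map (algebraMap F R) =
      T.map (algebraMap F R) * (ρ.map D ⊗ₖ M + ρ ⊗ₖ M.map D) := by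
    rw [← KDR_right, hW, KDR_left, KDR_kron]
  have h2 : W.map D * T.map (algebraMap F R) = T.map (algebraMap F R) * (ρ.map D ⊗ₖ M) := by
    have h3 : (S * T).map (algebraMap F R) =
        T.map (algebraMap F R) * (Z.map (algebraMap F R) ⊗ₖ (1 : Matrix (Fin b) (Fin b) R)) := by
      rw [hS, Matrix.map_mul]
      congr 1
      ext i k
      simp only [Matrix.map_apply, Matrix.kroneckerMap_apply, map_mul]
      congr 1
      rw [Matrix.one_apply, Matrix.one_apply]
      split_ifs <;> simp
    calc W.map D * T.map (algebraMap F R)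
        = W * (S.map (algebraMap F R) * T.map (algebraMap F R)) := by rw [hDW, Matrix.mul_assoc]
      _ = W * (T.map (algebraMap F R) *
            (Z.map (algebraMap F R) ⊗ₖ (1 : Matrix (Fin b) (Fin b) R))) := by
          rw [← Matrix.map_mul, h3]
      _ = T.map (algebraMap F R) * ((ρ ⊗ₖ M) *
            (Z.map (algebraMap F R) ⊗ₖ (1 : Matrix (Fin b) (Fin b) R))) := by
          rw [← Matrix.mul_assoc, hW, Matrix.mul_assoc]
      _ = T.map (algebraMap F R) * (ρ.map D ⊗ₖ M) := by
          rw [← Matrix.mul_kronecker_mul, Matrix.mul_one, hDρ]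
  have h4 : T.map (algebraMap F R) * (ρ ⊗ₖ M.map D) = 0 := by
    rw [h1, Matrix.mul_add] at h2
    have := congrArg (fun X => X - T.map (algebraMap F R) * (ρ.map D ⊗ₖ M)) h2
    simpa using this
  have h5 : (ρ ⊗ₖ M.map D) = 0 := by
    have h6 : T'.map (algebraMap F R) * T.map (algebraMap F R) = 1 := by
      rw [← Matrix.map_mul, hTT]
      ext i k
      rw [Matrix.map_apply, Matrix.one_apply, Matrix.one_apply]
      split_ifs <;> simp
    calc (ρ ⊗ₖ M.map D) = (T'.map (algebraMap F R) * T.map (algebraMap F R)) *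
          (ρ ⊗ₖ M.map D) := by rw [h6, Matrix.one_mul]
      _ = T'.map (algebraMap F R) * (T.map (algebraMap F R) * (ρ ⊗ₖ M.map D)) := by
          rw [Matrix.mul_assoc]
      _ = 0 := by rw [h4, Matrix.mul_zero]
  have h7 : ((1 : Matrix (Fin 2) (Fin 2) R) ⊗ₖ M.map D) = 0 := by
    calc ((1 : Matrix (Fin 2) (Fin 2) R) ⊗ₖ M.map D)
        = (ρ⁻¹ ⊗ₖ (1 : Matrix (Fin b) (Fin b) R)) * (ρ ⊗ₖ M.map D) := by
          rw [← Matrix.mul_kronecker_mul, Matrix.nonsing_inv_mul _ hu, Matrix.one_mul]
      _ = 0 := by rw [h5, Matrix.mul_zero]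
  ext i j
  have h8 := congrFun (congrFun h7 ((0 : Fin 2), i)) ((0 : Fin 2), j)
  simpa [Matrix.kroneckerMap_apply] using h8

end Pool.Agent.RG.KDR
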